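import Pool.Agent.H.MP_6c077c_gt.Cn.Canal

/-!
# Hypersurfaces of Euclidean 4-space swept out by round 2-spheres (MP_6c077c_gt)

Theorem `result`: let `S t`, `t ∈ [a, b]`, be the round 2-spheres with centre `c t` and squared
radius `q t` in the hyperplanes through `c t` orthogonal to the unit vectors `n t`; `c`, `n`, `q` are
smooth, `q` is positive inside and has simple zeros at both ends (so `S a`, `S b` are points).  If
these spheres are pairwise disjoint, and infinitesimally disjoint, then their union `M`, a smooth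
3-sphere, is carried onto the round sphere by a diffeomorphism with bounded support.

Companions, at the end of the file:
* `parametrised`: `M` is the image of the unit sphere of `ℝ × ℝ³` under an injective immersion
  `(t, u) ↦ c t + A t u`, where `A t` is a linear similarity;
* `envelope`: `M` is a canal hypersurface, the envelope of a one-parameter family of round 3-spheres.
-/

set_option autoImplicit false

namespace Pool.Agent.Results.MP_6c077c_gt.CanalSpheres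

open scoped ContDiff RealInnerProductSpace
open Metric Set Pool.Schoen

/-- **Spheres swept out by round 2-spheres.** `S t` is the 2-sphere (a point for `t = a`, `t = b`)
with centre `c t` and squared radius `q t` in the hyperplane through `c t` orthogonal to `n t`.  The
`S t` are pairwise disjoint, and for `x ∈ S t` the two functions defining the spheres do not both
have derivative zero in the parameter.  Then the union of the `S t` is unknotted. -/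
theorem result (c n : ℝ → EuclideanSpace ℝ (Fin 4)) (q : ℝ → ℝ) (hc : ContDiff ℝ ∞ c)
    (hn : ContDiff ℝ ∞ n) (hq : ContDiff ℝ ∞ q) (a b : ℝ) (hab : a < b)
    (hn1 : ∀ t ∈ Icc a b, ‖n t‖ = 1) (ha : q a = 0) (hb : q b = 0) (ha' : 0 < deriv q a)
    (hb' : deriv q b < 0) (hpos : ∀ t ∈ Ioo a b, 0 < q t)
    (hdisj : ∀ t ∈ Icc a b, ∀ t' ∈ Icc a b, ∀ x, ⟪n t, x - c t⟫ = 0 → ‖x - c t‖ ^ 2 = q t →
      ⟪n t', x - c t'⟫ = 0 → ‖x - c t'‖ ^ 2 = q t' → t = t')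
    (himm : ∀ t ∈ Ioo a b, ∀ x, ⟪n t, x - c t⟫ = 0 → ‖x - c t‖ ^ 2 = q t →
      deriv (fun s => ⟪n s, x - c s⟫) t ≠ 0 ∨ deriv (fun s => ‖x - c s‖ ^ 2 - q s) t ≠ 0) :
    ∃ φ ψ : EuclideanSpace ℝ (Fin 4) → EuclideanSpace ℝ (Fin 4),
      ContDiff ℝ ∞ φ ∧ ContDiff ℝ ∞ ψ ∧ (∀ x, ψ (φ x) = x) ∧ (∀ x, φ (ψ x) = x) ∧
      (∃ R : ℝ, ∀ x, R ≤ ‖x‖ → φ x = x) ∧
      φ '' {x | ∃ t ∈ Icc a b, ⟪n t, x - c t⟫ = 0 ∧ ‖x - c t‖ ^ 2 = q t} =
        sphere (0 : EuclideanSpace ℝ (Fin 4)) 1 :=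
  spheres_unk c n q hc hn hq a b hab hn1 ha hb ha' hb' hpos hdisj himm

/-- **Parametrised form.** `(t, u) ↦ c t + A t u` is an injective immersion of the unit sphere of
`ℝ × ℝ³` into Euclidean 4-space, and `A t` is a linear similarity for each `t ∈ [-1, 1]`.  Then the
image is unknotted. -/
theorem parametrised (c : ℝ → EuclideanSpace ℝ (Fin 4))
    (A : ℝ → EuclideanSpace ℝ (Fin 3) →L[ℝ] EuclideanSpace ℝ (Fin 4)) (hc : ContDiff ℝ ∞ c)
    (hA : ContDiff ℝ ∞ A)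
    (hsim : ∀ t ∈ Icc (-1 : ℝ) 1, ∃ r : ℝ, 0 < r ∧ ∀ u, ‖A t u‖ = r * ‖u‖)
    (hinj : ∀ (t t' : ℝ) (u u' : EuclideanSpace ℝ (Fin 3)), t ^ 2 + ‖u‖ ^ 2 = 1 →
      t' ^ 2 + ‖u'‖ ^ 2 = 1 → c t + A t u = c t' + A t' u' → t = t' ∧ u = u')
    (himm : ∀ (t α : ℝ) (u v : EuclideanSpace ℝ (Fin 3)), t ^ 2 + ‖u‖ ^ 2 = 1 →
      t * α + ⟪u, v⟫ = 0 → α • (deriv c t + deriv A t u) + A t v = 0 → α = 0 ∧ v = 0) :
    ∃ φ ψ : EuclideanSpace ℝ (Fin 4) → EuclideanSpace ℝ (Fin 4),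
      ContDiff ℝ ∞ φ ∧ ContDiff ℝ ∞ ψ ∧ (∀ x, ψ (φ x) = x) ∧ (∀ x, φ (ψ x) = x) ∧
      (∃ R : ℝ, ∀ x, R ≤ ‖x‖ → φ x = x) ∧
      φ '' {x | ∃ (t : ℝ) (u : EuclideanSpace ℝ (Fin 3)), t ^ 2 + ‖u‖ ^ 2 = 1 ∧
        c t + A t u = x} = sphere (0 : EuclideanSpace ℝ (Fin 4)) 1 :=
  canal_theorem (by simp) (by simp) hc hA hsim hinj himm

/-- **Canal hypersurfaces.** `Σ t` is the round 3-sphere with centre `g t` and radius `r t`; it
touches the envelope of all these spheres along `S t`, the set of the points `x` with `‖x - g t‖ = r t`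
at which the derivative of `(‖x - g t‖ ^ 2 - r t ^ 2) / 2` in `t` is zero: a round 2-sphere, because
`|r'| < ‖g'‖` inside, and a point for `t = a` and `t = b`, because `|r'| = ‖g'‖` there.  If the `S t`
are pairwise disjoint, and at their points the second derivative is not zero, then the envelope, the
union of the `S t`, is unknotted. -/
theorem envelope (g : ℝ → EuclideanSpace ℝ (Fin 4)) (r : ℝ → ℝ) (hg : ContDiff ℝ ∞ g)
    (hr : ContDiff ℝ ∞ r) (a b : ℝ) (hab : a < b) (hg' : ∀ t, deriv g t ≠ 0)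
    (hrp : ∀ t ∈ Icc a b, 0 < r t) (hin : ∀ t ∈ Ioo a b, |deriv r t| < ‖deriv g t‖)
    (ha : |deriv r a| = ‖deriv g a‖) (hb : |deriv r b| = ‖deriv g b‖)
    (hdisj : ∀ t ∈ Icc a b, ∀ t' ∈ Icc a b, ∀ x, ‖x - g t‖ = r t →
      ⟪x - g t, deriv g t⟫ + r t * deriv r t = 0 → ‖x - g t'‖ = r t' →
      ⟪x - g t', deriv g t'⟫ + r t' * deriv r t' = 0 → t = t')
    (himm : ∀ t ∈ Icc a b, ∀ x, ‖x - g t‖ = r t → ⟪x - g t, deriv g t⟫ + r t * deriv r t = 0 →
      deriv (fun s => ⟪x - g s, deriv g s⟫ + r s * deriv r s) t ≠ 0) :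
    ∃ φ ψ : EuclideanSpace ℝ (Fin 4) → EuclideanSpace ℝ (Fin 4),
      ContDiff ℝ ∞ φ ∧ ContDiff ℝ ∞ ψ ∧ (∀ x, ψ (φ x) = x) ∧ (∀ x, φ (ψ x) = x) ∧
      (∃ R : ℝ, ∀ x, R ≤ ‖x‖ → φ x = x) ∧
      φ '' {x | ∃ t ∈ Icc a b, ‖x - g t‖ = r t ∧ ⟪x - g t, deriv g t⟫ + r t * deriv r t = 0} =
        sphere (0 : EuclideanSpace ℝ (Fin 4)) 1 :=
  envelope_unk g r hg hr a b hab hg' hrp hin ha hb hdisj himm

end Pool.Agent.Results.MP_6c077c_gt.CanalSpheres
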