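import Pool.Agent.H.MP_6c077c_gt.Lz.Main3
import Pool.Agent.H.MP_6c077c_gt.Lz.Cor0
import Pool.Agent.H.MP_6c077c_gt.Ph.Cor
import Pool.Agent.H.MP_6c077c_gt.Ph.QFinal
import Pool.Agent.H.MP_6c077c_gt.PP.BallC
import Pool.Agent.H.MP_6c077c_gt.IxB.T1

/-!
# Convex functions on hypersurfaces of Euclidean 4-space (MP_6c077c_gt)

`M = {F = 0}` is the regular zero set of a smooth function `F` on Euclidean 4-space with
`W = {F ≤ 0}` bounded; `M` is homeomorphic to the 3-sphere (or only connected and such that every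
circle valued map lifts); `f` is a smooth convex function and `t` a real number.

Theorem `result`: suppose that `M` has no point `x` with `f x ≥ t` at which the gradient of `f` points
into `W` (`∇f = -m ∇F`, `m > 0`) and `D²f + m D²F` is negative on a tangent plane (`(x, m)` in the closure
of the saddle pairs), and that `W` is convex in one direction in the room `f ≤ t`.  Then `M` is carried
onto the round sphere by a diffeomorphism with bounded support.

Consequences and companions, at the end of the file: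
* `curvature`: `M` lies in a closed ball of radius `R` and at every point of `M` at most one principal
  curvature for the outer normal is `≤ -1 / R`;
* `curvature_sum`: the same if `k₁ + k₂ > -2 / R`;
* `outer_normals`: no outer normal of `M` passes through the point `o`, off `M`, at or after its second
  focal point;
* `convex_guard`: `K` is a compact convex set inside `W` which does not lie strictly on the outer side
  of the tangent hyperplane at any point of `M` with two negative principal curvatures;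
* `convex_two`: the two-sided form, for convex functions without critical points on `W`;
* `facing_point`: the two-sided form for the distance from a point `o` outside of `W`.
-/

set_option autoImplicit false

namespace Pool.Agent.Results.MP_6c077c_gt.ConvexFunctions

open scoped ContDiff RealInnerProductSpace
open Metric Set Pool.Schoen

/-- The second derivative `D²f` of `f` at `x`, in the direction `u`. -/
noncomputable def D2 {V : Type*} [NormedAddCommGroup V] [NormedSpace ℝ V] (f : V → ℝ) (x u : V) : ℝ :=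
  fderiv ℝ (fderiv ℝ f) x u u

/-- The saddle pairs of `f` on `M = {F = 0}`: `x ∈ M`, `m > 0`, and `D²f + m D²F` is negative definite
on a plane in the tangent space of `M` at `x`. -/
def saddlePairs (F f : EuclideanSpace ℝ (Fin 4) → ℝ) : Set (EuclideanSpace ℝ (Fin 4) × ℝ) :=
  {z | F z.1 = 0 ∧ 0 < z.2 ∧ ∃ U : Submodule ℝ (EuclideanSpace ℝ (Fin 4)),
    Module.finrank ℝ U = 2 ∧ ∀ u ∈ U, u ≠ 0 → ⟪gradient F z.1, u⟫ = 0 ∧
      D2 f z.1 u + z.2 * D2 F z.1 u < 0}

theorem grad_inner (F : EuclideanSpace ℝ (Fin 4) → ℝ) (x w : EuclideanSpace ℝ (Fin 4)) :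
    ⟪gradient F x, w⟫ = fderiv ℝ F x w := by
  rw [gradient, InnerProductSpace.toDual_symm_apply]

theorem grad_eq_smul {F f : EuclideanSpace ℝ (Fin 4) → ℝ} {x : EuclideanSpace ℝ (Fin 4)} {m : ℝ} :
    gradient f x = m • gradient F x ↔ ∀ v, fderiv ℝ f x v = m * fderiv ℝ F x v := by
  constructor
  · intro h v
    rw [← grad_inner, ← grad_inner, h, real_inner_smul_left]
  · intro h
    refine ext_inner_right ℝ fun v => ?_
    rw [real_inner_smul_left, grad_inner, grad_inner, h]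

theorem saddlePairs_eq (F f : EuclideanSpace ℝ (Fin 4) → ℝ) : saddlePairs F f = SadPair F f := by
  ext z
  simp only [saddlePairs, SadPair, grad_inner, hess, D2]

/-- The topological hypothesis on `M`. -/
theorem sides (F : EuclideanSpace ℝ (Fin 4) → ℝ) (hF : Continuous F)
    (hM : Nonempty ({x : EuclideanSpace ℝ (Fin 4) // F x = 0} ≃ₜ
        sphere (0 : EuclideanSpace ℝ (Fin 4)) 1) ∨
      (IsConnected {x | F x = 0} ∧
        ∀ u : EuclideanSpace ℝ (Fin 4) → ℂ, ContinuousOn u {x | F x = 0} →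
          (∀ x ∈ {x | F x = 0}, ‖u x‖ = 1) →
          ∃ v : EuclideanSpace ℝ (Fin 4) → ℝ, ContinuousOn v {x | F x = 0} ∧
            ∀ x ∈ {x | F x = 0}, u x = Complex.exp (v x * Complex.I))) : PSides F := by
  obtain ⟨hc, hl⟩ : IsConnected {x | F x = 0} ∧ LiftS {x | F x = 0} := by
    rcases hM with h | h
    · exact level_top (by simp) F h
    · exact h
  obtain ⟨hc1, hc2⟩ := sides_conn hF hc
  obtain ⟨hl1, hl2⟩ := BaseN_liftS hF hl
  exact ⟨hc1, hl1, hc2, hl2⟩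

/-- Let `f` be a smooth convex function. If at the levels `≥ t` there is no point of `M` at which the
gradient of `f` points into `W` and which is a saddle of `f` for the body `W` with a plane of negative
directions, and if `W` is convex in one direction in the room `f ≤ t`, then `M` is unknotted. -/
theorem result (F : EuclideanSpace ℝ (Fin 4) → ℝ) (hF : ContDiff ℝ ∞ F)
    (hb : Bornology.IsBounded {x | F x ≤ 0}) (hreg : ∀ x, F x = 0 → gradient F x ≠ 0)
    (hM : Nonempty ({x : EuclideanSpace ℝ (Fin 4) // F x = 0} ≃ₜ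
        sphere (0 : EuclideanSpace ℝ (Fin 4)) 1) ∨
      (IsConnected {x | F x = 0} ∧
        ∀ u : EuclideanSpace ℝ (Fin 4) → ℂ, ContinuousOn u {x | F x = 0} →
          (∀ x ∈ {x | F x = 0}, ‖u x‖ = 1) →
          ∃ v : EuclideanSpace ℝ (Fin 4) → ℝ, ContinuousOn v {x | F x = 0} ∧
            ∀ x ∈ {x | F x = 0}, u x = Complex.exp (v x * Complex.I)))
    (f : EuclideanSpace ℝ (Fin 4) → ℝ) (hf : ContDiff ℝ ∞ f) (hc : ConvexOn ℝ univ f) (t : ℝ)
    (h₁ : ∀ x m, (x, m) ∈ closure (saddlePairs F f) → 0 < m → t ≤ f x →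
      gradient f x ≠ -(m • gradient F x))
    (hq : ∃ q, f q < t)
    (h₂ : ∃ v : EuclideanSpace ℝ (Fin 4), v ≠ 0 ∧
      ∀ (x : EuclideanSpace ℝ (Fin 4)) (r s : ℝ), 0 ≤ r → r ≤ s → F x ≤ 0 → f x ≤ t →
        F (x + s • v) ≤ 0 → f (x + s • v) ≤ t → F (x + r • v) ≤ 0) :
    ∃ φ ψ : EuclideanSpace ℝ (Fin 4) → EuclideanSpace ℝ (Fin 4),
      ContDiff ℝ ∞ φ ∧ ContDiff ℝ ∞ ψ ∧ (∀ x, ψ (φ x) = x) ∧ (∀ x, φ (ψ x) = x) ∧
      (∃ R : ℝ, ∀ x, R ≤ ‖x‖ → φ x = x) ∧
      φ '' {x | F x = 0} = sphere (0 : EuclideanSpace ℝ (Fin 4)) 1 := by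
  refine carries_of_isBall F hF (convex_functions_ball (by simp) hF hb hreg
    (sides F hF.continuous hM) hf hc t ?_ (Or.inl ⟨hq, h₂⟩))
  intro x m hx hm hxt hg
  rw [← saddlePairs_eq] at hx
  refine h₁ x m hx hm hxt ?_
  rw [← neg_smul, grad_eq_smul]
  intro v
  rw [hg v]
  ring

/-- **The two-sided form.** Let `f` be a smooth convex function without critical points on `W`. If at
the levels `≥ t` there is no point of `M` at which the gradient of `f` points into `W` and which is a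
saddle of `f` for the body `W` with a plane of negative directions, and at the levels `≤ t` no such
saddle for `-f` at which the gradient of `f` points out of `W`, then `M` is unknotted. -/
theorem convex_two (F : EuclideanSpace ℝ (Fin 4) → ℝ) (hF : ContDiff ℝ ∞ F)
    (hb : Bornology.IsBounded {x | F x ≤ 0}) (hreg : ∀ x, F x = 0 → gradient F x ≠ 0)
    (hM : Nonempty ({x : EuclideanSpace ℝ (Fin 4) // F x = 0} ≃ₜ
        sphere (0 : EuclideanSpace ℝ (Fin 4)) 1) ∨
      (IsConnected {x | F x = 0} ∧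
        ∀ u : EuclideanSpace ℝ (Fin 4) → ℂ, ContinuousOn u {x | F x = 0} →
          (∀ x ∈ {x | F x = 0}, ‖u x‖ = 1) →
          ∃ v : EuclideanSpace ℝ (Fin 4) → ℝ, ContinuousOn v {x | F x = 0} ∧
            ∀ x ∈ {x | F x = 0}, u x = Complex.exp (v x * Complex.I)))
    (f : EuclideanSpace ℝ (Fin 4) → ℝ) (hf : ContDiff ℝ ∞ f) (hc : ConvexOn ℝ univ f) (t : ℝ)
    (hW : ∀ x, F x ≤ 0 → gradient f x ≠ 0)
    (h₁ : ∀ x m, (x, m) ∈ closure (saddlePairs F f) → 0 < m → t ≤ f x →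
      gradient f x ≠ -(m • gradient F x))
    (h₂ : ∀ x m, F x = 0 → 0 < m → f x ≤ t → gradient f x = m • gradient F x →
      ¬ ∃ U : Submodule ℝ (EuclideanSpace ℝ (Fin 4)), Module.finrank ℝ U = 2 ∧
        ∀ u ∈ U, ⟪gradient F x, u⟫ = 0 ∧ m * D2 F x u - D2 f x u ≤ 0) :
    ∃ φ ψ : EuclideanSpace ℝ (Fin 4) → EuclideanSpace ℝ (Fin 4),
      ContDiff ℝ ∞ φ ∧ ContDiff ℝ ∞ ψ ∧ (∀ x, ψ (φ x) = x) ∧ (∀ x, φ (ψ x) = x) ∧
      (∃ R : ℝ, ∀ x, R ≤ ‖x‖ → φ x = x) ∧
      φ '' {x | F x = 0} = sphere (0 : EuclideanSpace ℝ (Fin 4)) 1 := by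
  refine carries_of_isBall F hF (convex_functions_ball (by simp) hF hb hreg
    (sides F hF.continuous hM) hf hc t ?_ (Or.inr ⟨fun x hx h0 => hW x hx ?_,
      fun x m hx hm hxt hg => ?_⟩))
  · intro x m hx hm hxt hg
    rw [← saddlePairs_eq] at hx
    refine h₁ x m hx hm hxt ?_
    rw [← neg_smul, grad_eq_smul]
    intro v
    rw [hg v]
    ring
  · rw [gradient, h0, map_zero]
  · rintro ⟨U, hU2, hU⟩
    refine h₂ x m hx hm hxt (grad_eq_smul.2 hg) ⟨U, hU2, fun u hu => ?_⟩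
    obtain ⟨h1, h2⟩ := hU u hu
    exact ⟨by rw [grad_inner]; exact h1, sub_nonpos.2 h2⟩

/-- **Outer normals.** `o` is a point off `M`. If for no `x ∈ M` whose outer normal ray passes through
`o` there are two principal curvatures `≤ -1 / ‖x - o‖` (that is, `o` lies before the second focal
point on each outer normal), then `M` is unknotted. -/
theorem outer_normals (F : EuclideanSpace ℝ (Fin 4) → ℝ) (hF : ContDiff ℝ ∞ F)
    (hb : Bornology.IsBounded {x | F x ≤ 0}) (hreg : ∀ x, F x = 0 → gradient F x ≠ 0)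
    (hM : Nonempty ({x : EuclideanSpace ℝ (Fin 4) // F x = 0} ≃ₜ
        sphere (0 : EuclideanSpace ℝ (Fin 4)) 1) ∨
      (IsConnected {x | F x = 0} ∧
        ∀ u : EuclideanSpace ℝ (Fin 4) → ℂ, ContinuousOn u {x | F x = 0} →
          (∀ x ∈ {x | F x = 0}, ‖u x‖ = 1) →
          ∃ v : EuclideanSpace ℝ (Fin 4) → ℝ, ContinuousOn v {x | F x = 0} ∧
            ∀ x ∈ {x | F x = 0}, u x = Complex.exp (v x * Complex.I)))
    (o : EuclideanSpace ℝ (Fin 4)) (ho : F o ≠ 0)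
    (h : ∀ x m, F x = 0 → 0 < m → gradient F x = m • (o - x) →
      ¬ ∃ U : Submodule ℝ (EuclideanSpace ℝ (Fin 4)), Module.finrank ℝ U = 2 ∧
        ∀ u ∈ U, ⟪gradient F x, u⟫ = 0 ∧ D2 F x u ≤ -(m * ‖u‖ ^ 2)) :
    ∃ φ ψ : EuclideanSpace ℝ (Fin 4) → EuclideanSpace ℝ (Fin 4),
      ContDiff ℝ ∞ φ ∧ ContDiff ℝ ∞ ψ ∧ (∀ x, ψ (φ x) = x) ∧ (∀ x, φ (ψ x) = x) ∧
      (∃ R : ℝ, ∀ x, R ≤ ‖x‖ → φ x = x) ∧
      φ '' {x | F x = 0} = sphere (0 : EuclideanSpace ℝ (Fin 4)) 1 := by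
  exact carries_of_isBall F hF (outer_normals_ball (by simp) hF hb hreg
    (sides F hF.continuous hM) ho h)

/-- **Facing points.** `o` is a point outside of `W` and `r` a real number. If no `x ∈ M` at distance
`≥ r` from `o`, with outer normal pointing to `o`, has two principal curvatures `≤ -1 / ‖x - o‖`, and no
`x ∈ M` at distance `≤ r` from `o`, with outer normal pointing away from `o`, has two principal
curvatures `≤ 1 / ‖x - o‖`, then `M` is unknotted. -/
theorem facing_point (F : EuclideanSpace ℝ (Fin 4) → ℝ) (hF : ContDiff ℝ ∞ F)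
    (hb : Bornology.IsBounded {x | F x ≤ 0}) (hreg : ∀ x, F x = 0 → gradient F x ≠ 0)
    (hM : Nonempty ({x : EuclideanSpace ℝ (Fin 4) // F x = 0} ≃ₜ
        sphere (0 : EuclideanSpace ℝ (Fin 4)) 1) ∨
      (IsConnected {x | F x = 0} ∧
        ∀ u : EuclideanSpace ℝ (Fin 4) → ℂ, ContinuousOn u {x | F x = 0} →
          (∀ x ∈ {x | F x = 0}, ‖u x‖ = 1) →
          ∃ v : EuclideanSpace ℝ (Fin 4) → ℝ, ContinuousOn v {x | F x = 0} ∧
            ∀ x ∈ {x | F x = 0}, u x = Complex.exp (v x * Complex.I)))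
    (o : EuclideanSpace ℝ (Fin 4)) (ho : 0 < F o) (r : ℝ)
    (h₁ : ∀ x m, F x = 0 → 0 < m → r ≤ ‖x - o‖ → gradient F x = m • (o - x) →
      ¬ ∃ U : Submodule ℝ (EuclideanSpace ℝ (Fin 4)), Module.finrank ℝ U = 2 ∧
        ∀ u ∈ U, ⟪gradient F x, u⟫ = 0 ∧ D2 F x u ≤ -(m * ‖u‖ ^ 2))
    (h₂ : ∀ x m, F x = 0 → 0 < m → ‖x - o‖ ≤ r → gradient F x = m • (x - o) →
      ¬ ∃ U : Submodule ℝ (EuclideanSpace ℝ (Fin 4)), Module.finrank ℝ U = 2 ∧
        ∀ u ∈ U, ⟪gradient F x, u⟫ = 0 ∧ D2 F x u ≤ m * ‖u‖ ^ 2) :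
    ∃ φ ψ : EuclideanSpace ℝ (Fin 4) → EuclideanSpace ℝ (Fin 4),
      ContDiff ℝ ∞ φ ∧ ContDiff ℝ ∞ ψ ∧ (∀ x, ψ (φ x) = x) ∧ (∀ x, φ (ψ x) = x) ∧
      (∃ R : ℝ, ∀ x, R ≤ ‖x‖ → φ x = x) ∧
      φ '' {x | F x = 0} = sphere (0 : EuclideanSpace ℝ (Fin 4)) 1 := by
  refine carries_of_isBall F hF ?_
  rcases lt_or_ge r 0 with hr | hr
  · -- all points are at distance at least `r`
    exact outer_normals_ball (by simp) hF hb hreg (sides F hF.continuous hM) ho.ne'
      fun x m hx hm hg => h₁ x m hx hm (hr.le.trans (norm_nonneg _)) hg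
  refine concentric_ball (by simp) hF hb hreg (sides F hF.continuous hM) (o := o) ho
    (t := r ^ 2) ?_ ?_
  · rintro ⟨x, μ, hx, hxt, ⟨hμ, hg⟩, U, hU2, hU⟩
    have hrx : r ≤ ‖x - o‖ := by
      have h3 : r ^ 2 ≤ ‖x - o‖ ^ 2 := hxt
      exact (sq_le_sq₀ hr (norm_nonneg _)).1 h3
    have hgr : ∀ v, ⟪gradient F x, v⟫ = ⟪(2 * μ) • (o - x), v⟫ := fun v => by
      rw [grad_inner, hg v, sq_fderiv, real_inner_smul_left, ← neg_sub x o, inner_neg_left]
      ring
    refine h₁ x (2 * μ) hx (by positivity) hrx (ext_inner_right ℝ hgr) ⟨U, hU2, fun u hu => ?_⟩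
    obtain ⟨h3, h4⟩ := hU u hu
    rw [sq_fderiv] at h3
    rw [sq_hess, real_inner_self_eq_norm_sq] at h4
    constructor
    · rw [hgr, real_inner_smul_left, ← neg_sub x o, inner_neg_left]
      have h5 : ⟪x - o, u⟫ = 0 := by linarith
      rw [h5]
      ring
    · unfold hess at h4
      unfold D2
      nlinarith
  · rintro ⟨x, μ, hx, hxt, ⟨hμ, hg⟩, U, hU2, hU⟩
    have hrx : ‖x - o‖ ≤ r := by
      have h3 : -r ^ 2 ≤ -‖x - o‖ ^ 2 := hxt
      exact (sq_le_sq₀ (norm_nonneg _) hr).1 (by linarith)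
    have hgr : ∀ v, ⟪gradient F x, v⟫ = ⟪(2 * μ) • (x - o), v⟫ := fun v => by
      rw [grad_inner, hg v, fderiv_neg_apply', sq_fderiv, real_inner_smul_left]
      ring
    refine h₂ x (2 * μ) hx (by positivity) hrx (ext_inner_right ℝ hgr) ⟨U, hU2, fun u hu => ?_⟩
    obtain ⟨h3, h4⟩ := hU u hu
    rw [fderiv_neg_apply', sq_fderiv] at h3
    rw [hess_neg', sq_hess, real_inner_self_eq_norm_sq] at h4
    constructor
    · rw [hgr, real_inner_smul_left]
      have h5 : ⟪x - o, u⟫ = 0 := by linarith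
      rw [h5]
      ring
    · unfold hess at h4
      unfold D2
      nlinarith

/-- **Curvature in a ball.** If `M` lies in a closed ball of radius `R` and at every point of `M` at
most one principal curvature (for the outer normal) is `≤ -1 / R`, then `M` is unknotted. -/
theorem curvature (F : EuclideanSpace ℝ (Fin 4) → ℝ) (hF : ContDiff ℝ ∞ F)
    (hb : Bornology.IsBounded {x | F x ≤ 0}) (hreg : ∀ x, F x = 0 → gradient F x ≠ 0)
    (hM : Nonempty ({x : EuclideanSpace ℝ (Fin 4) // F x = 0} ≃ₜ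
        sphere (0 : EuclideanSpace ℝ (Fin 4)) 1) ∨
      (IsConnected {x | F x = 0} ∧
        ∀ u : EuclideanSpace ℝ (Fin 4) → ℂ, ContinuousOn u {x | F x = 0} →
          (∀ x ∈ {x | F x = 0}, ‖u x‖ = 1) →
          ∃ v : EuclideanSpace ℝ (Fin 4) → ℝ, ContinuousOn v {x | F x = 0} ∧
            ∀ x ∈ {x | F x = 0}, u x = Complex.exp (v x * Complex.I)))
    (c : EuclideanSpace ℝ (Fin 4)) (R : ℝ) (hR : 0 < R) (hball : ∀ x, F x = 0 → ‖x - c‖ ≤ R)
    (h : ∀ x, F x = 0 → ¬ ∃ U : Submodule ℝ (EuclideanSpace ℝ (Fin 4)), Module.finrank ℝ U = 2 ∧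
      ∀ u ∈ U, ⟪gradient F x, u⟫ = 0 ∧
        D2 F x u ≤ -(‖gradient F x‖ / R * ‖u‖ ^ 2)) :
    ∃ φ ψ : EuclideanSpace ℝ (Fin 4) → EuclideanSpace ℝ (Fin 4),
      ContDiff ℝ ∞ φ ∧ ContDiff ℝ ∞ ψ ∧ (∀ x, ψ (φ x) = x) ∧ (∀ x, φ (ψ x) = x) ∧
      (∃ R : ℝ, ∀ x, R ≤ ‖x‖ → φ x = x) ∧
      φ '' {x | F x = 0} = sphere (0 : EuclideanSpace ℝ (Fin 4)) 1 := by
  exact carries_of_isBall F hF (curvature_ball (by simp) hF hb hreg
    (sides F hF.continuous hM) hR hball h)

/-- **Curvature in a ball**, for the sum of two principal curvatures: if `M` lies in a closed ball of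
radius `R` and `k₁ + k₂ > -2 / R` everywhere, then `M` is unknotted. -/
theorem curvature_sum (F : EuclideanSpace ℝ (Fin 4) → ℝ) (hF : ContDiff ℝ ∞ F)
    (hb : Bornology.IsBounded {x | F x ≤ 0}) (hreg : ∀ x, F x = 0 → gradient F x ≠ 0)
    (hM : Nonempty ({x : EuclideanSpace ℝ (Fin 4) // F x = 0} ≃ₜ
        sphere (0 : EuclideanSpace ℝ (Fin 4)) 1) ∨
      (IsConnected {x | F x = 0} ∧
        ∀ u : EuclideanSpace ℝ (Fin 4) → ℂ, ContinuousOn u {x | F x = 0} →
          (∀ x ∈ {x | F x = 0}, ‖u x‖ = 1) →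
          ∃ v : EuclideanSpace ℝ (Fin 4) → ℝ, ContinuousOn v {x | F x = 0} ∧
            ∀ x ∈ {x | F x = 0}, u x = Complex.exp (v x * Complex.I)))
    (c : EuclideanSpace ℝ (Fin 4)) (R : ℝ) (hR : 0 < R) (hball : ∀ x, F x = 0 → ‖x - c‖ ≤ R)
    (h : ∀ x u v : EuclideanSpace ℝ (Fin 4), F x = 0 → ‖u‖ = 1 → ‖v‖ = 1 → ⟪u, v⟫ = 0 →
      ⟪gradient F x, u⟫ = 0 → ⟪gradient F x, v⟫ = 0 →
        -(2 * ‖gradient F x‖ / R) < D2 F x u + D2 F x v) :
    ∃ φ ψ : EuclideanSpace ℝ (Fin 4) → EuclideanSpace ℝ (Fin 4),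
      ContDiff ℝ ∞ φ ∧ ContDiff ℝ ∞ ψ ∧ (∀ x, ψ (φ x) = x) ∧ (∀ x, φ (ψ x) = x) ∧
      (∃ R : ℝ, ∀ x, R ≤ ‖x‖ → φ x = x) ∧
      φ '' {x | F x = 0} = sphere (0 : EuclideanSpace ℝ (Fin 4)) 1 := by
  exact carries_of_isBall F hF (curvature_sum_ball (by simp) hF hb hreg
    (sides F hF.continuous hM) hR hball h)

/-- **Convex guard.** `K` is a nonempty compact convex set in the interior of `W`. If `K` does not lie
strictly on the outer side of the tangent hyperplane of `M` at any `x` in the closure of the set of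
points with two negative principal curvatures, then `M` is unknotted. -/
theorem convex_guard (F : EuclideanSpace ℝ (Fin 4) → ℝ) (hF : ContDiff ℝ ∞ F)
    (hb : Bornology.IsBounded {x | F x ≤ 0}) (hreg : ∀ x, F x = 0 → gradient F x ≠ 0)
    (hM : Nonempty ({x : EuclideanSpace ℝ (Fin 4) // F x = 0} ≃ₜ
        sphere (0 : EuclideanSpace ℝ (Fin 4)) 1) ∨
      (IsConnected {x | F x = 0} ∧
        ∀ u : EuclideanSpace ℝ (Fin 4) → ℂ, ContinuousOn u {x | F x = 0} →
          (∀ x ∈ {x | F x = 0}, ‖u x‖ = 1) →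
          ∃ v : EuclideanSpace ℝ (Fin 4) → ℝ, ContinuousOn v {x | F x = 0} ∧
            ∀ x ∈ {x | F x = 0}, u x = Complex.exp (v x * Complex.I)))
    (K : Set (EuclideanSpace ℝ (Fin 4))) (hK : IsCompact K) (hKc : Convex ℝ K)
    (hne : K.Nonempty) (hKF : ∀ x ∈ K, F x < 0)
    (h : ∀ x ∈ closure {x | F x = 0 ∧ ∃ U : Submodule ℝ (EuclideanSpace ℝ (Fin 4)),
      Module.finrank ℝ U = 2 ∧ ∀ u ∈ U, u ≠ 0 → ⟪gradient F x, u⟫ = 0 ∧
        D2 F x u < 0}, ∃ k ∈ K, ⟪gradient F x, k - x⟫ ≤ 0) :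
    ∃ φ ψ : EuclideanSpace ℝ (Fin 4) → EuclideanSpace ℝ (Fin 4),
      ContDiff ℝ ∞ φ ∧ ContDiff ℝ ∞ ψ ∧ (∀ x, ψ (φ x) = x) ∧ (∀ x, φ (ψ x) = x) ∧
      (∃ R : ℝ, ∀ x, R ≤ ‖x‖ → φ x = x) ∧
      φ '' {x | F x = 0} = sphere (0 : EuclideanSpace ℝ (Fin 4)) 1 := by
  refine carries_of_isBall F hF (Pool.Schoen.convex_guard (by simp) hF hb hreg
    (sides F hF.continuous hM) hK hKc hne hKF ?_)
  simpa only [TwoNeg, grad_inner, D2] using h

end Pool.Agent.Results.MP_6c077c_gt.ConvexFunctions
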