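import Pool.Agent.H.MP_6c077c_gt.N3.Start3

/-!
# Hypersurfaces of Euclidean 4-space whose slices are spheres and tori (MP_6c077c_gt)

`M = {F = 0}` is the regular zero set of a smooth function `F` on Euclidean 4-space with
`{F ≤ 0}` bounded; `M` is homeomorphic to the 3-sphere.  Let `e` be a unit vector.  The horizontal
points are the points of `M` at which the normal is `e` or `-e`; the height of `x` is `⟪e, x⟫`.

Theorem `result`: suppose that the horizontal points are nondegenerate critical points of the height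
function on `M` and have different heights, that every component of a slice of `M` at a height
without horizontal points is a sphere or a torus, and that no sphere among them encloses a torus
(the tori may be knotted, linked and nested, and may enclose spheres).  Then `M` is carried onto the
round sphere by a diffeomorphism with bounded support.
-/

set_option autoImplicit false

namespace Pool.Agent.Results.MP_6c077c_gt.NestedSlices

open scoped ContDiff RealInnerProductSpace
open Metric Set Pool.Schoen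

/-- `x` is a point of `{F = 0}` at which the gradient of `F` is a multiple of `e`. -/
def Horizontal (F : EuclideanSpace ℝ (Fin 4) → ℝ) (e x : EuclideanSpace ℝ (Fin 4)) : Prop :=
  F x = 0 ∧ ∃ l : ℝ, gradient F x = l • e

/-- The second derivative of `F` at `x` is nondegenerate on the hyperplane orthogonal to `e`. -/
def Nondegenerate (F : EuclideanSpace ℝ (Fin 4) → ℝ) (e x : EuclideanSpace ℝ (Fin 4)) : Prop :=
  ∀ u, ⟪e, u⟫ = 0 →
    (∀ v, ⟪e, v⟫ = 0 → deriv (fun s : ℝ => deriv (fun t : ℝ => F (x + s • u + t • v)) 0) 0 = 0) → u = 0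

/-- The component of `x` in the slice of `{F = 0}` by the hyperplane through `x` orthogonal to `e`. -/
def sliceComponent (F : EuclideanSpace ℝ (Fin 4) → ℝ) (e x : EuclideanSpace ℝ (Fin 4)) :
    Set (EuclideanSpace ℝ (Fin 4)) :=
  connectedComponentIn {y | F y = 0 ∧ ⟪e, y⟫ = ⟪e, x⟫} x

/-- `y` is not in `T` and lies in a bounded component of the complement of `T` in the hyperplane
through `y` orthogonal to `e`. -/
def Encloses (e : EuclideanSpace ℝ (Fin 4)) (T : Set (EuclideanSpace ℝ (Fin 4)))
    (y : EuclideanSpace ℝ (Fin 4)) : Prop :=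
  y ∉ T ∧ Bornology.IsBounded (connectedComponentIn ({z | ⟪e, z⟫ = ⟪e, y⟫} \ T) y)

theorem second_deriv (F : EuclideanSpace ℝ (Fin 4) → ℝ) (hF : ContDiff ℝ ∞ F)
    (x u v : EuclideanSpace ℝ (Fin 4)) :
    deriv (fun s : ℝ => deriv (fun t : ℝ => F (x + s • u + t • v)) 0) 0 =
      fderiv ℝ (fderiv ℝ F) x u v := by
  have h1 : (fun s : ℝ => deriv (fun t : ℝ => F (x + s • u + t • v)) 0) =
      fun s : ℝ => fderiv ℝ F (x + s • u) v := by
    funext s
    have hd : HasDerivAt (fun t : ℝ => x + s • u + t • v) v 0 := by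
      simpa using ((hasDerivAt_id (0 : ℝ)).smul_const v).const_add (x + s • u)
    have hf : HasFDerivAt F (fderiv ℝ F (x + s • u)) (x + s • u + (0 : ℝ) • v) := by
      simpa using ((hF.differentiable (by simp)) (x + s • u)).hasFDerivAt
    exact (hf.comp_hasDerivAt (0 : ℝ) hd).deriv
  rw [h1]
  have hd : HasDerivAt (fun s : ℝ => x + s • u) u 0 := by
    simpa using ((hasDerivAt_id (0 : ℝ)).smul_const u).const_add x
  have hc : ContDiff ℝ ∞ (fderiv ℝ F) := hF.fderiv_right (by simp)
  have hf : HasFDerivAt (fderiv ℝ F) (fderiv ℝ (fderiv ℝ F) x) (x + (0 : ℝ) • u) := by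
    simpa using ((hc.differentiable (by simp)) x).hasFDerivAt
  have := (hf.comp_hasDerivAt (0 : ℝ) hd).clm_apply (hasDerivAt_const (0 : ℝ) v)
  simpa using this.deriv

/-- Let the second derivative of `F` be nondegenerate on the hyperplane orthogonal to `e` at the points
of `M = {F = 0}` with normal `e` or `-e`, and let these points have different heights. If at the other
heights every component of the slice of `M` is homeomorphic to a sphere or to a torus, and no component
homeomorphic to a sphere encloses a point of a component homeomorphic to a torus, then `M` is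
unknotted. -/
theorem result (F : EuclideanSpace ℝ (Fin 4) → ℝ) (hF : ContDiff ℝ ∞ F)
    (hb : Bornology.IsBounded {x | F x ≤ 0}) (hreg : ∀ x, F x = 0 → gradient F x ≠ 0)
    (hM : Nonempty ({x : EuclideanSpace ℝ (Fin 4) // F x = 0} ≃ₜ
        sphere (0 : EuclideanSpace ℝ (Fin 4)) 1))
    (e : EuclideanSpace ℝ (Fin 4)) (he : ‖e‖ = 1)
    (h₁ : ∀ x, Horizontal F e x → Nondegenerate F e x)
    (h₂ : ∀ x y, Horizontal F e x → Horizontal F e y → x ≠ y → ⟪e, x⟫ ≠ ⟪e, y⟫)
    (h₃ : ∀ x, F x = 0 → (∀ y, Horizontal F e y → ⟪e, y⟫ ≠ ⟪e, x⟫) →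
      Nonempty (sliceComponent F e x ≃ₜ sphere (0 : EuclideanSpace ℝ (Fin 3)) 1) ∨
        Nonempty (sliceComponent F e x ≃ₜ Circle × Circle))
    (h₄ : ∀ x z, F x = 0 → F z = 0 → ⟪e, z⟫ = ⟪e, x⟫ →
      (∀ y, Horizontal F e y → ⟪e, y⟫ ≠ ⟪e, x⟫) →
      Nonempty (sliceComponent F e x ≃ₜ sphere (0 : EuclideanSpace ℝ (Fin 3)) 1) →
      Encloses e (sliceComponent F e x) z → ¬ Nonempty (sliceComponent F e z ≃ₜ Circle × Circle)) :
    ∃ φ ψ : EuclideanSpace ℝ (Fin 4) → EuclideanSpace ℝ (Fin 4),
      ContDiff ℝ ∞ φ ∧ ContDiff ℝ ∞ ψ ∧ (∀ x, ψ (φ x) = x) ∧ (∀ x, φ (ψ x) = x) ∧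
      (∃ R : ℝ, ∀ x, R ≤ ‖x‖ → φ x = x) ∧
      φ '' {x | F x = 0} = sphere (0 : EuclideanSpace ℝ (Fin 4)) 1 := by
  obtain ⟨hc, hl⟩ : IsConnected {x | F x = 0} ∧ LiftS {x | F x = 0} := level_top (by simp) F hM
  refine n3_carries (by simp) F hF hb hreg hc hl e he (fun x hx h u hu hv => ?_)
    (fun x y hx h hy h' => h₂ x y ⟨hx, h⟩ ⟨hy, h'⟩) (fun x T hx h hT => ?_)
    (fun x z T U hx hz h hxz hT hU hS hzT hB => ?_)
  · exact h₁ x ⟨hx, h⟩ u hu fun v hv' => (second_deriv F hF x u v).trans (hv v hv')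
  · subst hT
    exact h₃ x hx fun y hy => h y hy.1 hy.2
  · subst hT
    subst hU
    exact h₄ x z hx hz hxz (fun y hy => h y hy.1 hy.2) hS ⟨hzT, hB⟩

end Pool.Agent.Results.MP_6c077c_gt.NestedSlices
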