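import Pool.Agent.H.MP_6c077c_gt.Hx.Final
import Pool.Agent.H.MP_6c077c_gt.Hx.Signom
import Pool.Agent.H.MP_6c077c_gt.Hx.OpenE
import Pool.Agent.H.MP_6c077c_gt.Hx.LineP
import Pool.Agent.H.MP_6c077c_gt.Al.Main
import Pool.Agent.H.MP_6c077c_gt.IxB.T1

/-!
# Six-secants of hypersurfaces of Euclidean 4-space (MP_6c077c_gt)

`M = {F = 0}` is the regular zero set of a smooth function `F` on Euclidean 4-space with
`{F ≤ 0}` bounded; `M` is homeomorphic to the 3-sphere (or only connected and such that every circle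
valued map lifts).  Theorem `result`: if, for some unit vector `w`, no line which crosses `M` six
times meets `M` at a point whose outer unit normal is near `w`, then `M` is carried onto the round
sphere by a diffeomorphism with bounded support.

Consequences, at the end of the file:
* `no_hexasecant`: no line crosses `M` six times;
* `degree_five`: `M` lies in a real algebraic hypersurface of degree at most `5`;
* `signomial`: `M` lies in the open positive orthant and in the zero set of a signomial with at most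
  two negative coefficients;
* `degree_three_in_one`: `M` lies in a real algebraic hypersurface, of any total degree but of degree
  at most `3` in one of the four variables, which is nonsingular along `M`.
-/

set_option autoImplicit false

namespace Pool.Agent.Results.MP_6c077c_gt.SixSecants

open scoped ContDiff RealInnerProductSpace
open Metric Set Pool.Schoen

/-- The line `p + t • d` is a hexasecant of `{F = 0}`: `F` is negative, positive, negative, positive,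
negative at five successive points of it (so that it crosses `{F = 0}` at least six times, if
`{F ≤ 0}` is bounded). -/
def Hexasecant (F : EuclideanSpace ℝ (Fin 4) → ℝ) (p d : EuclideanSpace ℝ (Fin 4)) : Prop :=
  ∃ t₁ t₂ t₃ t₄ t₅ : ℝ, t₁ < t₂ ∧ t₂ < t₃ ∧ t₃ < t₄ ∧ t₄ < t₅ ∧
    F (p + t₁ • d) < 0 ∧ 0 < F (p + t₂ • d) ∧ F (p + t₃ • d) < 0 ∧ 0 < F (p + t₄ • d) ∧
    F (p + t₅ • d) < 0

/-- Alexander's theorem in the hyperplanes of Euclidean 4-space. -/
theorem alexander_perp (e : EuclideanSpace ℝ (Fin 4)) (he : ‖e‖ = 1) (G : (ℝ ∙ e)ᗮ → ℝ)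
    (hG : Dom G) (hc : IsPreconnected {x | 0 < G x}) : IsBall G := by
  refine alexander ?_ G hG hc
  have he0 : e ≠ 0 := by
    rintro rfl
    rw [norm_zero] at he
    norm_num at he
  haveI : Fact (Module.finrank ℝ (EuclideanSpace ℝ (Fin 4)) = 3 + 1) := ⟨by simp⟩
  exact Submodule.finrank_orthogonal_span_singleton he0

/-- The topological hypothesis on `M`. -/
theorem top_of (F : EuclideanSpace ℝ (Fin 4) → ℝ)
    (hM : Nonempty ({x : EuclideanSpace ℝ (Fin 4) // F x = 0} ≃ₜ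
        sphere (0 : EuclideanSpace ℝ (Fin 4)) 1) ∨
      (IsConnected {x | F x = 0} ∧
        ∀ u : EuclideanSpace ℝ (Fin 4) → ℂ, ContinuousOn u {x | F x = 0} →
          (∀ x ∈ {x | F x = 0}, ‖u x‖ = 1) →
          ∃ v : EuclideanSpace ℝ (Fin 4) → ℝ, ContinuousOn v {x | F x = 0} ∧
            ∀ x ∈ {x | F x = 0}, u x = Complex.exp (v x * Complex.I))) :
    IsConnected {x | F x = 0} ∧ LiftS {x | F x = 0} := by
  rcases hM with h | h
  · exact level_top (by simp) F h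
  · exact h

/-- If, for some unit vector `w`, no line which crosses `M = {F = 0}` six times meets `M` at a point
with outer unit normal near `w`, then `M` is unknotted. -/
theorem result (F : EuclideanSpace ℝ (Fin 4) → ℝ) (hF : ContDiff ℝ ∞ F)
    (hb : Bornology.IsBounded {x | F x ≤ 0}) (hreg : ∀ x, F x = 0 → gradient F x ≠ 0)
    (hM : Nonempty ({x : EuclideanSpace ℝ (Fin 4) // F x = 0} ≃ₜ
        sphere (0 : EuclideanSpace ℝ (Fin 4)) 1) ∨
      (IsConnected {x | F x = 0} ∧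
        ∀ u : EuclideanSpace ℝ (Fin 4) → ℂ, ContinuousOn u {x | F x = 0} →
          (∀ x ∈ {x | F x = 0}, ‖u x‖ = 1) →
          ∃ v : EuclideanSpace ℝ (Fin 4) → ℝ, ContinuousOn v {x | F x = 0} ∧
            ∀ x ∈ {x | F x = 0}, u x = Complex.exp (v x * Complex.I)))
    (w : EuclideanSpace ℝ (Fin 4)) (hw : ‖w‖ = 1) (δ : ℝ) (hδ : 0 < δ)
    (h6 : ∀ p d : EuclideanSpace ℝ (Fin 4), Hexasecant F p d → ∀ t : ℝ, F (p + t • d) = 0 →
      δ ≤ ‖nrm F (p + t • d) - w‖) :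
    ∃ φ ψ : EuclideanSpace ℝ (Fin 4) → EuclideanSpace ℝ (Fin 4),
      ContDiff ℝ ∞ φ ∧ ContDiff ℝ ∞ ψ ∧ (∀ x, ψ (φ x) = x) ∧ (∀ x, φ (ψ x) = x) ∧
      (∃ R : ℝ, ∀ x, R ≤ ‖x‖ → φ x = x) ∧
      φ '' {x | F x = 0} = sphere (0 : EuclideanSpace ℝ (Fin 4)) 1 := by
  obtain ⟨hMc, hMl⟩ := top_of F hM
  refine hexasecant_carries (by simp) alexander_perp F hF hb hreg hMc hMl w hw δ hδ ?_
  intro p d t₁ t₂ t₃ t₄ t₅ h1 h2 h3 h4 s1 s2 s3 s4 s5 t ht
  exact h6 p d ⟨t₁, t₂, t₃, t₄, t₅, h1, h2, h3, h4, s1, s2, s3, s4, s5⟩ t ht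

/-- The form with the class of balls. -/
theorem ball_of_noSix (F : EuclideanSpace ℝ (Fin 4) → ℝ) (hF : ContDiff ℝ ∞ F)
    (hb : Bornology.IsBounded {x | F x ≤ 0}) (hreg : ∀ x, F x = 0 → gradient F x ≠ 0)
    (hMc : IsConnected {x | F x = 0}) (hMl : LiftS {x | F x = 0}) (h6 : NoSix F) : IsBall F := by
  have hw : ‖(EuclideanSpace.single 0 1 : EuclideanSpace ℝ (Fin 4))‖ = 1 := by simp
  exact hexasecant_ball (by simp) alexander_perp F hF hb hreg hMc hMl _ hw 1 one_pos (h6.dir _ _)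

/-- If no line crosses `M = {F = 0}` six times, then `M` is unknotted. -/
theorem no_hexasecant (F : EuclideanSpace ℝ (Fin 4) → ℝ) (hF : ContDiff ℝ ∞ F)
    (hb : Bornology.IsBounded {x | F x ≤ 0}) (hreg : ∀ x, F x = 0 → gradient F x ≠ 0)
    (hM : Nonempty ({x : EuclideanSpace ℝ (Fin 4) // F x = 0} ≃ₜ
        sphere (0 : EuclideanSpace ℝ (Fin 4)) 1) ∨
      (IsConnected {x | F x = 0} ∧
        ∀ u : EuclideanSpace ℝ (Fin 4) → ℂ, ContinuousOn u {x | F x = 0} →
          (∀ x ∈ {x | F x = 0}, ‖u x‖ = 1) →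
          ∃ v : EuclideanSpace ℝ (Fin 4) → ℝ, ContinuousOn v {x | F x = 0} ∧
            ∀ x ∈ {x | F x = 0}, u x = Complex.exp (v x * Complex.I)))
    (h6 : ∀ p d : EuclideanSpace ℝ (Fin 4), ¬ Hexasecant F p d) :
    ∃ φ ψ : EuclideanSpace ℝ (Fin 4) → EuclideanSpace ℝ (Fin 4),
      ContDiff ℝ ∞ φ ∧ ContDiff ℝ ∞ ψ ∧ (∀ x, ψ (φ x) = x) ∧ (∀ x, φ (ψ x) = x) ∧
      (∃ R : ℝ, ∀ x, R ≤ ‖x‖ → φ x = x) ∧
      φ '' {x | F x = 0} = sphere (0 : EuclideanSpace ℝ (Fin 4)) 1 :=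
  result F hF hb hreg hM (EuclideanSpace.single 0 1) (by simp) 1 one_pos
    fun p d h => absurd h (h6 p d)

/-- If `M = {F = 0}` lies in a real algebraic hypersurface of degree at most `5`, then `M` is
unknotted. -/
theorem degree_five (F : EuclideanSpace ℝ (Fin 4) → ℝ) (hF : ContDiff ℝ ∞ F)
    (hb : Bornology.IsBounded {x | F x ≤ 0}) (hreg : ∀ x, F x = 0 → gradient F x ≠ 0)
    (hM : Nonempty ({x : EuclideanSpace ℝ (Fin 4) // F x = 0} ≃ₜ
        sphere (0 : EuclideanSpace ℝ (Fin 4)) 1) ∨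
      (IsConnected {x | F x = 0} ∧
        ∀ u : EuclideanSpace ℝ (Fin 4) → ℂ, ContinuousOn u {x | F x = 0} →
          (∀ x ∈ {x | F x = 0}, ‖u x‖ = 1) →
          ∃ v : EuclideanSpace ℝ (Fin 4) → ℝ, ContinuousOn v {x | F x = 0} ∧
            ∀ x ∈ {x | F x = 0}, u x = Complex.exp (v x * Complex.I)))
    (P : MvPolynomial (Fin 4) ℝ) (hP0 : P ≠ 0) (hP : P.totalDegree ≤ 5)
    (hsub : ∀ x : EuclideanSpace ℝ (Fin 4), F x = 0 → MvPolynomial.eval (fun i => x i) P = 0) :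
    ∃ φ ψ : EuclideanSpace ℝ (Fin 4) → EuclideanSpace ℝ (Fin 4),
      ContDiff ℝ ∞ φ ∧ ContDiff ℝ ∞ ψ ∧ (∀ x, ψ (φ x) = x) ∧ (∀ x, φ (ψ x) = x) ∧
      (∃ R : ℝ, ∀ x, R ≤ ‖x‖ → φ x = x) ∧
      φ '' {x | F x = 0} = sphere (0 : EuclideanSpace ℝ (Fin 4)) 1 := by
  obtain ⟨hMc, hMl⟩ := top_of F hM
  exact carries_of_isBall F hF
    (ball_of_noSix F hF hb hreg hMc hMl (noSix_of_poly hP0 hP hF.continuous hb hsub))

/-- If `M = {F = 0}` lies in the open positive orthant and in the zero set of a signomial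
`∑ c_i x^(a_i)` (real exponents, not identically zero on the orthant) with at most two negative
coefficients, then `M` is unknotted. -/
theorem signomial (F : EuclideanSpace ℝ (Fin 4) → ℝ) (hF : ContDiff ℝ ∞ F)
    (hb : Bornology.IsBounded {x | F x ≤ 0}) (hreg : ∀ x, F x = 0 → gradient F x ≠ 0)
    (hM : Nonempty ({x : EuclideanSpace ℝ (Fin 4) // F x = 0} ≃ₜ
        sphere (0 : EuclideanSpace ℝ (Fin 4)) 1) ∨
      (IsConnected {x | F x = 0} ∧
        ∀ u : EuclideanSpace ℝ (Fin 4) → ℂ, ContinuousOn u {x | F x = 0} →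
          (∀ x ∈ {x | F x = 0}, ‖u x‖ = 1) →
          ∃ v : EuclideanSpace ℝ (Fin 4) → ℝ, ContinuousOn v {x | F x = 0} ∧
            ∀ x ∈ {x | F x = 0}, u x = Complex.exp (v x * Complex.I)))
    (m : ℕ) (c : Fin m → ℝ) (a : Fin m → Fin 4 → ℝ)
    (h2 : (Finset.univ.filter fun i => c i < 0).card ≤ 2)
    (hO : ∀ x, F x = 0 → ∀ j, 0 < x j)
    (hsub : ∀ x, F x = 0 → ∑ i, c i * ∏ j, x j ^ a i j = 0)
    (hne : ∃ x : EuclideanSpace ℝ (Fin 4), (∀ j, 0 < x j) ∧ ∑ i, c i * ∏ j, x j ^ a i j ≠ 0) :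
    ∃ φ ψ : EuclideanSpace ℝ (Fin 4) → EuclideanSpace ℝ (Fin 4),
      ContDiff ℝ ∞ φ ∧ ContDiff ℝ ∞ ψ ∧ (∀ x, ψ (φ x) = x) ∧ (∀ x, φ (ψ x) = x) ∧
      (∃ R : ℝ, ∀ x, R ≤ ‖x‖ → φ x = x) ∧
      φ '' {x | F x = 0} = sphere (0 : EuclideanSpace ℝ (Fin 4)) 1 := by
  obtain ⟨hMc, hMl⟩ := top_of F hM
  obtain ⟨x₀, hx₀, hne'⟩ := hne
  refine carries_of_isBall F hF ?_
  refine isBall_open (Th := exMap) (Ps := lgMap) exMap_contDiff lgMap_exMap
    (by rw [range_exMap]; exact isOpen_orthant) (by rw [range_exMap]; exact lgMap_contDiffOn)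
    F (good_of_regular hF (hb.subset fun x hx => le_of_eq hx)
      fun x hx h0 => hreg x hx (by rw [gradient, h0, map_zero])) hb
    (fun x hx => by rw [range_exMap]; exact body_orthant hF.continuous hb hO hx) ?_
  exact ball_of_noSix _ (comp_smooth hF) (comp_bdd hF.continuous hb hO) (comp_reg hF hreg)
    (comp_conn hO hMc) (comp_lift hO hMl)
    (noSix_signomial h2 hF.continuous hb hO hsub ⟨x₀, hx₀, hne'⟩)

/-- If `M = {F = 0}` lies in a real algebraic hypersurface `P = 0` of degree at most `3` in one of the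
four variables (and of any total degree), which is nonsingular along `M` (or at least such that, at
every singular point of it on `M`, `P` does not vanish identically on the line through the point
parallel to the axis of that variable), then `M` is unknotted. -/
theorem degree_three_in_one (F : EuclideanSpace ℝ (Fin 4) → ℝ) (hF : ContDiff ℝ ∞ F)
    (hb : Bornology.IsBounded {x | F x ≤ 0}) (hreg : ∀ x, F x = 0 → gradient F x ≠ 0)
    (hM : Nonempty ({x : EuclideanSpace ℝ (Fin 4) // F x = 0} ≃ₜ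
        sphere (0 : EuclideanSpace ℝ (Fin 4)) 1) ∨
      (IsConnected {x | F x = 0} ∧
        ∀ u : EuclideanSpace ℝ (Fin 4) → ℂ, ContinuousOn u {x | F x = 0} →
          (∀ x ∈ {x | F x = 0}, ‖u x‖ = 1) →
          ∃ v : EuclideanSpace ℝ (Fin 4) → ℝ, ContinuousOn v {x | F x = 0} ∧
            ∀ x ∈ {x | F x = 0}, u x = Complex.exp (v x * Complex.I)))
    (P : MvPolynomial (Fin 4) ℝ) (j : Fin 4) (hP : P.degreeOf j ≤ 3)
    (hsub : ∀ x : EuclideanSpace ℝ (Fin 4), F x = 0 → MvPolynomial.eval (fun i => x i) P = 0)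
    (hne : ∀ x : EuclideanSpace ℝ (Fin 4), F x = 0 →
      (∃ t : ℝ, MvPolynomial.eval (fun i => (x + t • EuclideanSpace.single j (1 : ℝ)) i) P ≠ 0) ∨
        gradient (fun y : EuclideanSpace ℝ (Fin 4) => MvPolynomial.eval (fun i => y i) P) x ≠ 0) :
    ∃ φ ψ : EuclideanSpace ℝ (Fin 4) → EuclideanSpace ℝ (Fin 4),
      ContDiff ℝ ∞ φ ∧ ContDiff ℝ ∞ ψ ∧ (∀ x, ψ (φ x) = x) ∧ (∀ x, φ (ψ x) = x) ∧
      (∃ R : ℝ, ∀ x, R ≤ ‖x‖ → φ x = x) ∧
      φ '' {x | F x = 0} = sphere (0 : EuclideanSpace ℝ (Fin 4)) 1 := by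
  obtain ⟨hMc, hMl⟩ := top_of F hM
  exact carries_of_isBall F hF (degreeOf_ball alexander_perp F hF hb hreg hMc hMl P j hP hsub hne)

end Pool.Agent.Results.MP_6c077c_gt.SixSecants
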